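import Pool.Agent.Helper23.CC.Spec

/-!
Curves of genus at most one in cyclic covers: the cases (part CASES).
-/

set_option autoImplicit false

namespace Pool.Agent.Helper46.CC

open MvPolynomial Pool.Agent.W600.Alg Pool.Agent.Helper23.CC Pool.Agent.H734R3.LV

section

variable {k : Type} [Field k] [IsAlgClosed k] [CharZero k]
  {n r g : ℕ} (h : St_PATT) (hn : 1 ≤ n) (m : Fin r → ℕ) (hm : ∀ i, 2 ≤ m i)
    (F : Fin r → MvPolynomial (Fin (n + 1)) k) (e : Fin r → ℕ) (he : ∀ i, 0 < e i)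
    (hF : ∀ i, (F i).IsHomogeneous (m i * e i))
    (G : Fin g → MvPolynomial (Fin (n + 1)) k) (d : Fin g → ℕ) (hd : ∀ j, 1 ≤ d j)
    (hG : ∀ i, (G i).IsHomogeneous (d i))
    (Q : Src k → Prop) (hQ : ∀ a b h, Q (Src.ell a b h))

include h hn hm he hF hd hG hQ

/-- no extra root -/
theorem case0 (hK : ∑ i, (m i - 1) * e i + ∑ j, (d j + 1) ≤ 2 * (n - 1)) :
    LineCurve2 Q m e F G := by
  refine h k Q n r g 0 hn m (fun i => by have := hm i; omega) F e he hF G d hd hG
    Fin.elim0 (Sum.elim (fun j => m j.1) Fin.elim0) ?_ (by omega) ?_ ?_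
  · rintro (j | j)
    · have := hm j.1
      simp only [Sum.elim_inl]
      omega
    · exact j.elim0
  · intro j
    simp
  · intro c
    obtain ⟨a, b, h, D, S, T, hD, hP, -⟩ := ell_const (0 : k)
    exact ⟨_, D, S, T, hQ a b h, hD, hP,
      fun j => ⟨_, hP.lin (c (Sum.inl j)), fun z => by simp⟩⟩

/-- one extra root -/
theorem case1 (hK : ∑ i, (m i - 1) * e i + ∑ j, (d j + 1) ≤ 2 * (n - 1) + 1)
    (b : Σ i : Fin r, Fin (e i)) : LineCurve2 Q m e F G := by
  classical
  have hb0 := hm b.1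
  refine h k Q n r g 1 hn m (fun i => by have := hm i; omega) F e he hF G d hd hG
    ![b] (Sum.elim (fun j => if j = b then m b.1 - 1 else m j.1) ![1]) ?_ hK ?_ ?_
  · rintro (j | j)
    · simp only [Sum.elim_inl]
      have := hm j.1
      split_ifs <;> omega
    · fin_cases j
      simp
  · intro j
    by_cases hj : b = j
    · subst hj
      simp
      omega
    · have hj' : ¬ j = b := fun h => hj h.symm
      simp [hj, hj']
  · intro c
    obtain ⟨s, D, S, T, hs, hD, hP, y, hy, hy'⟩ : ∃ (s : Src k) (D : ℕ) (S T : s.Pt → k), Q s ∧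
        0 < D ∧ Par s D S T ∧ ∃ y, s.Reg D y ∧ ∀ t, y t ^ m b.1 =
          (S t + c (Sum.inl b) * T t) ^ (m b.1 - 1) * (S t + c (Sum.inr 0) * T t) := by
      obtain ⟨a, b', h, D, S, T, hD, hP, h'⟩ := ell_rat (c (Sum.inl b)) (c (Sum.inr 0)) (hm b.1)
      exact ⟨_, D, S, T, hQ a b' h, hD, hP, h'⟩
    refine ⟨s, D, S, T, hs, hD, hP, fun j => ?_⟩
    by_cases hj : b = j
    · subst hj
      exact ⟨y, hy, fun z => by simp [hy']⟩
    · have hj' : ¬ j = b := fun h => hj h.symm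
      exact ⟨_, hP.lin (c (Sum.inl j)), fun z => by simp [hj, hj']⟩

/-- types `(3,3,3)` and `(2,4,4)` -/
theorem case3 (hK : ∑ i, (m i - 1) * e i + ∑ j, (d j + 1) ≤ 2 * (n - 1) + 2)
    (b : Σ i : Fin r, Fin (e i)) (h34 : 3 ∣ m b.1 ∨ 4 ∣ m b.1) : LineCurve2 Q m e F G := by
  classical
  have hb0 := hm b.1
  obtain ⟨α1, α2, hα1, hα2, hsum, hsol⟩ : ∃ α1 α2 : ℕ, 0 < α1 ∧ 0 < α2 ∧
      α1 + α1 + α2 = m b.1 ∧ ∀ c0 c1 c2 : k, EllMap fun s D S T => ∃ y, s.Reg D y ∧
        ∀ z, y z ^ m b.1 = (S z + c0 * T z) ^ α1 * ((S z + c1 * T z) ^ α1 *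
          (S z + c2 * T z) ^ α2) := by
    rcases h34 with ⟨μ, hμ⟩ | ⟨μ, hμ⟩
    · refine ⟨μ, μ, by omega, by omega, by omega, fun c0 c1 c2 => ?_⟩
      obtain ⟨a, b', hab, D, S, T, hD, hP, h⟩ := e3' ![c0, c1, c2]
      obtain ⟨M0, y0, hM0, d0, h0⟩ := h 0
      obtain ⟨M1, y1, hM1, d1, h1⟩ := h 1
      obtain ⟨M2, y2, hM2, d2, h2⟩ := h 2
      simp only [Matrix.cons_val] at h0 h1 h2
      refine ⟨a, b', hab, D, S, T, hD, hP, fun z => y0 z * (y1 z * y2 z), ?_, fun z => ?_⟩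
      · have := reg_mul d0 (reg_mul d1 d2)
        convert this using 1
        omega
      · rw [h0, h1, h2, hμ, pow_mul]
        ring
    · refine ⟨μ, 2 * μ, by omega, by omega, by omega, fun c0 c1 c2 => ?_⟩
      obtain ⟨a, b', hab, D, S, T, hD, hP, ⟨M0, y0, hM0, d0, h0⟩, ⟨M1, y1, hM1, d1, h1⟩,
        ⟨M2, y2, hM2, d2, h2⟩⟩ := e42' c0 c1 c2
      refine ⟨a, b', hab, D, S, T, hD, hP, fun z => y0 z * (y1 z * y2 z), ?_, fun z => ?_⟩
      · have := reg_mul d0 (reg_mul d1 d2)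
        convert this using 1
        omega
      · rw [h0, h1, h2, hμ, pow_mul]
        ring
  refine h k Q n r g 2 hn m (fun i => by have := hm i; omega) F e he hF G d hd hG
    ![b, b] (Sum.elim (fun j => if j = b then α1 else m j.1) ![α1, α2]) ?_ hK ?_ ?_
  · rintro (j | j)
    · simp only [Sum.elim_inl]
      have := hm j.1
      split_ifs <;> omega
    · fin_cases j
      · exact hα1
      · exact hα2
  · intro j
    simp only [Sum.elim_inl, Sum.elim_inr, Fin.sum_univ_two, Matrix.cons_val_zero,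
      Matrix.cons_val_one]
    by_cases hj : b = j
    · subst hj
      simp
      omega
    · have hj' : ¬ j = b := fun h => hj h.symm
      simp [hj, hj']
  · intro c
    obtain ⟨a, b', hab, D, S, T, hD, hP, y, hy, hy'⟩ :=
      hsol (c (Sum.inl b)) (c (Sum.inr 0)) (c (Sum.inr 1))
    refine ⟨_, D, S, T, hQ a b' hab, hD, hP, fun j => ?_⟩
    by_cases hj : b = j
    · subst hj
      exact ⟨y, hy, fun z => by simp [hy', Fin.prod_univ_two]⟩
    · have hj' : ¬ j = b := fun h => hj h.symm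
      exact ⟨_, hP.lin (c (Sum.inl j)), fun z => by simp [hj, hj']⟩

/-- type `(2,2,2,2)` -/
theorem case2 (hK : ∑ i, (m i - 1) * e i + ∑ j, (d j + 1) ≤ 2 * (n - 1) + 2)
    (b0 b1 : Σ i : Fin r, Fin (e i)) (hb : b0 ≠ b1) (μ0 μ1 : ℕ) (h0 : m b0.1 = 2 * μ0)
    (h1 : m b1.1 = 2 * μ1) : LineCurve2 Q m e F G := by
  classical
  have hb0 := hm b0.1
  have hb1 := hm b1.1
  refine h k Q n r g 2 hn m (fun i => by have := hm i; omega) F e he hF G d hd hG
    ![b0, b1] (Sum.elim (fun j => if j = b0 then μ0 else if j = b1 then μ1 else m j.1) ![μ0, μ1])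
    ?_ hK ?_ ?_
  · rintro (j | j)
    · simp only [Sum.elim_inl]
      have := hm j.1
      split_ifs <;> omega
    · fin_cases j
      · simp
        omega
      · simp
        omega
  · intro j
    simp only [Sum.elim_inl, Sum.elim_inr, Fin.sum_univ_two, Matrix.cons_val_zero,
      Matrix.cons_val_one]
    by_cases hj : b0 = j
    · subst hj
      simp [hb.symm, h0]
      omega
    · by_cases hj1 : b1 = j
      · subst hj1
        simp [hb, hb.symm, h1]
        omega
      · have hj' : ¬ j = b0 := fun h => hj h.symm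
        have hj1' : ¬ j = b1 := fun h => hj1 h.symm
        simp [hj, hj', hj1, hj1']
  · intro c
    obtain ⟨a, b', hab, D, S, T, hD, hP, h⟩ :=
      e4' ![c (Sum.inl b0), c (Sum.inr 0), c (Sum.inl b1), c (Sum.inr 1)]
    obtain ⟨M0, y0, hM0, d0, k0⟩ := h 0
    obtain ⟨M1, y1, hM1, d1, k1⟩ := h 1
    obtain ⟨M2, y2, hM2, d2, k2⟩ := h 2
    obtain ⟨M3, y3, hM3, d3, k3⟩ := h 3
    simp only [Matrix.cons_val] at k0 k1 k2 k3
    refine ⟨_, D, S, T, hQ a b' hab, hD, hP, fun j => ?_⟩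
    by_cases hj : b0 = j
    · subst hj
      refine ⟨fun z => y0 z * y1 z, ?_, fun z => ?_⟩
      · have := reg_mul d0 d1
        convert this using 1
        omega
      have hb' : ¬ b1 = b0 := hb.symm
      simp only [Sum.elim_inl, Sum.elim_inr, if_true, Matrix.cons_val_zero, Matrix.cons_val_one,
        hb', if_false, mul_one, Fin.prod_univ_two]
      rw [k0, k1, h0, pow_mul]
      ring
    · by_cases hj1 : b1 = j
      · subst hj1
        refine ⟨fun z => y2 z * y3 z, ?_, fun z => ?_⟩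
        · have := reg_mul d2 d3
          convert this using 1
          omega
        simp only [Sum.elim_inl, Sum.elim_inr, if_true, Matrix.cons_val_zero, Matrix.cons_val_one,
          hb.symm, hb, if_false, one_mul, Fin.prod_univ_two]
        rw [k2, k3, h1, pow_mul]
        ring
      · have hj' : ¬ j = b0 := fun h => hj h.symm
        have hj1' : ¬ j = b1 := fun h => hj1 h.symm
        exact ⟨_, hP.lin (c (Sum.inl j)), fun z => by simp [hj, hj', hj1, hj1']⟩

end

/-- CASES -/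
theorem cases' (h : St_PATT) : St_CASES := by
  intro k _ _ _ Q n r g hn m hm F e he hF G d hd hG hQ hK h0 h0'
  classical
  by_cases hlt : ∑ i, (m i - 1) * e i + ∑ j, (d j + 1) ≤ 2 * (n - 1)
  · exact case0 h hn m hm F e he hF G d hd hG Q hQ hlt
  by_cases heq : ∑ i, (m i - 1) * e i + ∑ j, (d j + 1) = 2 * n - 1
  · exact case1 h hn m hm F e he hF G d hd hG Q hQ (by omega)
      ⟨⟨0, h0' heq⟩, ⟨0, he _⟩⟩
  rcases h0 (by omega) with ⟨i, hi⟩ | h2
  · exact case3 h hn m hm F e he hF G d hd hG Q hQ (by omega) ⟨i, ⟨0, he i⟩⟩ hi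
  · have hcard : 1 < (Finset.univ.filter fun j : Σ i : Fin r, Fin (e i) => 2 ∣ m j.1).card := by
      rw [Finset.card_filter, Fintype.sum_sigma]
      rw [Finset.sum_filter] at h2
      refine lt_of_lt_of_le h2 (Finset.sum_le_sum fun i _ => ?_)
      split_ifs <;> simp
    obtain ⟨b0, hb0, b1, hb1, hb⟩ := Finset.one_lt_card.1 hcard
    simp only [Finset.mem_filter, Finset.mem_univ, true_and] at hb0 hb1
    obtain ⟨μ0, hμ0⟩ := hb0
    obtain ⟨μ1, hμ1⟩ := hb1
    exact case2 h hn m hm F e he hF G d hd hG Q hQ (by omega) b0 b1 hb μ0 μ1 hμ0 hμ1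

end Pool.Agent.Helper46.CC
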