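import Pool.Agent.Helper23.CC.Spec

/-!
From lines of prescribed contact type to curves (part PATT).
-/

set_option autoImplicit false

namespace Pool.Agent.Helper46.CC

open MvPolynomial Pool.Agent.W600.Alg Pool.Agent.Helper23.CC Pool.Agent.H734R3.LV

/-- evaluation over the base field -/
theorem aeval_self {K τ : Type} [Field K] (x : τ → K) (F : MvPolynomial τ K) :
    aeval x F = eval x F := by
  have := congrArg (fun f : MvPolynomial τ K →+* K => f F) (MvPolynomial.coe_aeval_eq_eval x)
  exact this

/-- a value where finitely many nonzero linear forms do not vanish -/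
theorem exists_good {K σ : Type} [Field K] [Infinite K] [Fintype σ] (al be : σ → K)
    (h : ∀ s, al s = 1 ∨ be s = 1) : ∃ t : K, ∀ s, al s + be s * t ≠ 0 := by
  classical
  have hne : (∏ s, (Polynomial.C (al s) + Polynomial.C (be s) * Polynomial.X) : Polynomial K) ≠ 0 := by
    refine Finset.prod_ne_zero_iff.2 fun s _ h0 => ?_
    have h1 := congrArg (fun p => p.coeff 0) h0
    have h2 := congrArg (fun p => p.coeff 1) h0
    simp at h1 h2
    rcases h s with h3 | h3
    · rw [h3] at h1
      exact one_ne_zero h1
    · rw [h3] at h2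
      exact one_ne_zero h2
  obtain ⟨t, ht⟩ : ∃ t, (∏ s, (Polynomial.C (al s) + Polynomial.C (be s) * Polynomial.X) :
      Polynomial K).eval t ≠ 0 := by
    by_contra hcon
    push Not at hcon
    exact hne (Polynomial.funext fun t => by rw [hcon t, Polynomial.eval_zero])
  refine ⟨t, fun s hs => ht ?_⟩
  rw [Polynomial.eval_prod]
  refine Finset.prod_eq_zero (Finset.mem_univ s) ?_
  simpa using hs

/-- PATT -/
theorem patt (h : St_CLT) : St_PATT := by
  intro k _ _ _ Q n r g q hn m hm0 F e he hF G d hd hG b mult hmult hcard hsum hT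
  classical
  let J := Σ i : Fin r, Fin (e i)
  let own0 : J ⊕ Fin q → Fin r := fun s => (slot b s).1
  let own : J ⊕ Fin q → Fin r ⊕ Fin g := fun s => Sum.inl (own0 s)
  let Z : Finset (Fin r ⊕ Fin g) := Finset.univ.filter fun a => a.isRight = true
  have hZl : ∀ i : Fin r, (Sum.inl i : Fin r ⊕ Fin g) ∉ Z := fun i => by simp [Z]
  have hZr : ∀ i : Fin g, (Sum.inr i : Fin r ⊕ Fin g) ∈ Z := fun i => by simp [Z]
  have hfil : ∀ i : Fin r, (Finset.univ.filter fun s => own s = Sum.inl i) =
      Finset.univ.filter fun s => own0 s = i := fun i => by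
    ext s
    simp [own]
  have hcardfib : ∀ i, (Finset.univ.filter fun j : J => j.1 = i).card = e i := by
    intro i
    rw [Finset.card_filter, Fintype.sum_sigma, Finset.sum_eq_single i]
    · simp
    · intro b _ hb
      simp [hb]
    · simp
  have hown : ∀ i, ∑ s with own0 s = i, mult s = m i * e i := by
    intro i
    have h1 : ∑ s with own0 s = i, mult s = ∑ j : J with j.1 = i, ∑ s with slot b s = j, mult s :=
      prod_own (fun j : J => j.1) (M := Multiplicative ℕ) b mult i
    have h2 : ∑ j : J with j.1 = i, ∑ s with slot b s = j, mult s = ∑ j : J with j.1 = i, m i := by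
      refine Finset.sum_congr rfl fun j hj => ?_
      rw [sum_slot b j mult, hsum j]
      have : j.1 = i := by simpa using hj
      rw [this]
    rw [h1, h2, Finset.sum_const, hcardfib, smul_eq_mul, mul_comm]
  have hcnt : ∀ i, (Finset.univ.filter fun s => own0 s = i).card ≤ m i * e i := by
    intro i
    rw [← hown i, Finset.card_eq_sum_ones]
    exact Finset.sum_le_sum fun s _ => hmult s
  have hcnt' : ∑ i, (Finset.univ.filter fun s => own0 s = i).card = ∑ i, e i + q := by
    have h1 : ∑ i, (Finset.univ.filter fun s => own0 s = i).card =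
        (Finset.univ : Finset (J ⊕ Fin q)).card :=
      (Finset.card_eq_sum_card_fiberwise fun s _ => Finset.mem_univ (own0 s)).symm
    rw [h1, Finset.card_univ]
    simp only [J, Fintype.card_sum, Fintype.card_sigma, Fintype.card_fin]
  have hZc : Zᶜ = Finset.univ.filter fun a => ¬ a.isRight = true := by
    ext a
    simp [Z]
  have hs1 : ∑ a ∈ Z, (Sum.elim (fun i => m i * e i) d a + 1) = ∑ j, (d j + 1) := by
    rw [Finset.sum_filter, Fintype.sum_sum_type]
    simp
  have hs2 : ∑ a ∈ Zᶜ, (Sum.elim (fun i => m i * e i) d a -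
      (Finset.univ.filter fun s => own s = a).card) =
      ∑ i, (m i * e i - (Finset.univ.filter fun s => own0 s = i).card) := by
    rw [hZc, Finset.sum_filter, Fintype.sum_sum_type]
    simp only [Sum.isRight_inl, Sum.isRight_inr, Sum.elim_inl, hfil]
    simp
  have hs3 : ∑ i, (m i * e i - (Finset.univ.filter fun s => own0 s = i).card) + q =
      ∑ i, (m i - 1) * e i := by
    have h1 : ∑ i, (m i * e i - (Finset.univ.filter fun s => own0 s = i).card) +
        ∑ i, (Finset.univ.filter fun s => own0 s = i).card = ∑ i, m i * e i := by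
      rw [← Finset.sum_add_distrib]
      exact Finset.sum_congr rfl fun i _ => Nat.sub_add_cancel (hcnt i)
    have h2 : ∑ i, m i * e i = ∑ i, (m i - 1) * e i + ∑ i, e i := by
      rw [← Finset.sum_add_distrib]
      refine Finset.sum_congr rfl fun i _ => ?_
      obtain ⟨m', hm'⟩ : ∃ m', m i = m' + 1 := ⟨m i - 1, by have := hm0 i; omega⟩
      rw [hm', Nat.add_sub_cancel]
      ring
    rw [hcnt', h2] at h1
    omega
  obtain ⟨P, R, i0, j0, al, be, c, hPi, hPj, hRi, hRj, hab, hline⟩ :=
    h k n hn (Fin r ⊕ Fin g) (J ⊕ Fin q) (Sum.elim (fun i => m i * e i) d) Z own mult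
      (Sum.elim F G) (by
        rintro (i | i)
        · exact hF i
        · exact hG i) (by
        rintro (i | i)
        · exact Nat.mul_pos (Nat.pos_of_ne_zero (hm0 i)) (he i)
        · exact hd i) (fun s => hmult s) (by
        rintro (i | i) hi
        · rw [hfil]
          exact hown i
        · exact absurd (hZr i) hi) (by
        rw [hs1, hs2]
        omega)
  have hline' : ∀ a (x y : k), eval (fun l => x * P l + y * R l) ((Sum.elim F G : _ → _) a) =
      if a ∈ Z then 0 else c a * ∏ s with own s = a, (al s * x + be s * y) ^ mult s := by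
    intro a x y
    rw [← aeval_self, hline]
  obtain ⟨t, ht⟩ := exists_good al be hab
  obtain ⟨src, D, S, T, hQ, hD, hP, hY⟩ := hT fun s => be s / (al s + be s * t)
  choose y hy hy' using hY
  choose ρ hρ using fun i => IsAlgClosed.exists_pow_nat_eq
    (c (Sum.inl i) * ∏ s with own0 s = i, (al s + be s * t) ^ mult s)
    (Nat.pos_of_ne_zero (hm0 i))
  have hpt : ∀ x z : k, (fun l => x * (P l + t * R l) + z * R l) =
      fun l => x * P l + (x * t + z) * R l := fun x z => by
    funext l
    ring
  refine ⟨fun l => P l + t * R l, R, fun x z hxz => ?_, src, D, S, T, hQ, hD, hP,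
    fun i z => ρ i * ∏ j : J with j.1 = i, y j z, fun i => ?_, fun z => ⟨fun i => ?_, fun i => ?_⟩⟩
  · have h1 := congrFun hxz i0
    have h2 := congrFun hxz j0
    simp only [Pi.zero_apply] at h1 h2
    rw [hPi, hRi] at h1
    rw [hPj, hRj] at h2
    have hx : x = 0 := by linear_combination h1
    refine ⟨hx, ?_⟩
    rw [hx] at h2
    linear_combination h2
  · have := reg_cmul (ρ i) (reg_prod (Finset.univ.filter fun j : J => j.1 = i) (D := D)
      fun j _ => hy j)
    rwa [hcardfib] at this
  · rw [hpt]
    have h1 := hline' (Sum.inl i) (S z) (S z * t + T z)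
    rw [if_neg (hZl i), hfil] at h1
    simp only [Sum.elim_inl] at h1
    rw [h1, mul_pow, hρ, ← Finset.prod_pow, mul_assoc]
    congr 1
    have h2 : ∏ s with own0 s = i, (al s * S z + be s * (S z * t + T z)) ^ mult s =
        (∏ s with own0 s = i, (al s + be s * t) ^ mult s) *
          ∏ s with own0 s = i, (S z + be s / (al s + be s * t) * T z) ^ mult s := by
      rw [← Finset.prod_mul_distrib]
      refine Finset.prod_congr rfl fun s _ => ?_
      rw [← mul_pow]
      congr 1
      have := ht s
      field_simp
      ring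
    rw [h2]
    congr 1
    refine Eq.trans ?_ (prod_own (fun j : J => j.1) b
      (fun s => (S z + be s / (al s + be s * t) * T z) ^ mult s) i).symm
    refine Finset.prod_congr rfl fun j hj => ?_
    have hji : j.1 = i := by simpa using hj
    rw [← hji, hy' j, prod_slot]
  · rw [hpt]
    have h1 := hline' (Sum.inr i) (S z) (S z * t + T z)
    rw [if_pos (hZr i)] at h1
    simpa only [Sum.elim_inr] using h1

end Pool.Agent.Helper46.CC
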