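import Pool.Agent.Helper23.CC.Spec2

/-!
Rational curves in cyclic covers (part GA).
-/

set_option autoImplicit false

namespace Pool.Agent.Helper46.CC

open MvPolynomial Pool.Agent.W600.Alg Pool.Agent.Helper23.CC Pool.Agent.H734R3.LV

section

variable {k : Type} [Field k] [IsAlgClosed k] [CharZero k]
  {n r g : ℕ} (h : St_PATT) (hn : 1 ≤ n) (m : Fin r → ℕ) (hm : ∀ i, 2 ≤ m i)
    (F : Fin r → MvPolynomial (Fin (n + 1)) k) (e : Fin r → ℕ) (he : ∀ i, 0 < e i)
    (hF : ∀ i, (F i).IsHomogeneous (m i * e i))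
    (G : Fin g → MvPolynomial (Fin (n + 1)) k) (d : Fin g → ℕ) (hd : ∀ j, 1 ≤ d j)
    (hG : ∀ i, (G i).IsHomogeneous (d i))

include h hn hm he hF hd hG

/-- no extra root -/
theorem ga0 (hK : ∑ i, (m i - 1) * e i + ∑ j, (d j + 1) ≤ 2 * (n - 1)) :
    LineCurve2 (fun s => s = Src.ga) m e F G := by
  refine h k _ n r g 0 hn m (fun i => by have := hm i; omega) F e he hF G d hd hG
    Fin.elim0 (Sum.elim (fun j => m j.1) Fin.elim0) ?_ (by omega) ?_ ?_
  · rintro (j | j)
    · have := hm j.1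
      simp only [Sum.elim_inl]
      omega
    · exact j.elim0
  · intro j
    simp
  · intro c
    obtain ⟨S, T, hP, -⟩ := ga_const (0 : k)
    exact ⟨_, 1, S, T, rfl, one_pos, hP,
      fun j => ⟨_, hP.lin (c (Sum.inl j)), fun z => by simp⟩⟩

/-- one extra root -/
theorem ga1 (hK : ∑ i, (m i - 1) * e i + ∑ j, (d j + 1) ≤ 2 * (n - 1) + 1)
    (b : Σ i : Fin r, Fin (e i)) : LineCurve2 (fun s => s = Src.ga) m e F G := by
  classical
  have hb0 := hm b.1
  refine h k _ n r g 1 hn m (fun i => by have := hm i; omega) F e he hF G d hd hG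
    ![b] (Sum.elim (fun j => if j = b then m b.1 - 1 else m j.1) ![1]) ?_ hK ?_ ?_
  · rintro (j | j)
    · simp only [Sum.elim_inl]
      have := hm j.1
      split_ifs <;> omega
    · fin_cases j
      simp
  · intro j
    by_cases hj : b = j
    · subst hj
      simp
      omega
    · have hj' : ¬ j = b := fun h => hj h.symm
      simp [hj, hj']
  · intro c
    obtain ⟨S, T, hP, y, hy, hy'⟩ := ga_rat (c (Sum.inl b)) (c (Sum.inr 0)) (hm b.1)
    refine ⟨_, 1, S, T, rfl, one_pos, hP, fun j => ?_⟩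
    by_cases hj : b = j
    · subst hj
      exact ⟨y, hy, fun z => by simp [hy']⟩
    · have hj' : ¬ j = b := fun h => hj h.symm
      exact ⟨_, hP.lin (c (Sum.inl j)), fun z => by simp [hj, hj']⟩

end

/-- GA -/
theorem ga (h : St_PATT) : St_GA := by
  intro k _ _ _ n r g hn m hm F e he hF G d hd hG hK h0' hrat
  classical
  have hLC : LineCurve2 (fun s => s = Src.ga) m e F G := by
    by_cases hlt : ∑ i, (m i - 1) * e i + ∑ j, (d j + 1) ≤ 2 * (n - 1)
    · exact ga0 h hn m hm F e he hF G d hd hG hlt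
    · exact ga1 h hn m hm F e he hF G d hd hG (by omega) ⟨⟨0, h0' (by omega)⟩, ⟨0, he _⟩⟩
  obtain ⟨p, v, hv, s, D, S, T, rfl, hD, hPar, W, hW, hX⟩ := hLC
  have hmor : IsMor e (Src.ga : Src k) D fun t =>
      ((fun j => S t * p j + T t * v j, fun i => W i t) :
        (Fin (n + 1) → k) × (Fin r → k)) := by
    refine ⟨fun j => ?_, hW⟩
    have := reg_add (reg_cmul (p j) hPar.hS) (reg_cmul (v j) hPar.hT)
    refine (congrArg ((Src.ga : Src k).Reg D) (funext fun t => ?_)).mp this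
    ring
  have hmem : ∀ t, ((fun j => S t * p j + T t * v j, fun i => W i t) :
        (Fin (n + 1) → k) × (Fin r → k)) ∈ Pts m F G 1 := by
    intro t
    refine ⟨fun h0 => ?_, (hX t).1, (hX t).2, by simp⟩
    obtain ⟨h1, h2⟩ := hv _ _ h0
    rcases hPar.ne t with h3 | h3
    · exact h3 h1
    · exact h3 h2
  obtain ⟨t, t', ht⟩ := hPar.nc
  exact ht (not_same hv (hrat D _ hmor hmem t t'))

end Pool.Agent.Helper46.CC
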