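import Pool.Agent.Helper23.CC.Spec2

/-!
Generic covers of large degree are groupless (part GRP).
-/

set_option autoImplicit false

namespace Pool.Agent.Helper46.CC

open MvPolynomial Pool.Agent.W600.Alg Pool.Agent.Helper23.CC FF Pool.Agent.W603.LV
  Pool.Agent.W603.PV Pool.Agent.Y735.EL

/-- the duplication on the function field of an elliptic curve -/
theorem exists_dup' {K L : Type} [Field K] [IsAlgClosed K] [CharZero K] [Field L] [Algebra K L]
    [IsFF K L] {a b : K} (hab : 4 * a ^ 3 + 27 * b ^ 2 ≠ 0) {x y : L} (hx : Transcendental K x)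
    (h1 : y ^ 2 = x ^ 3 + algebraMap K L a * x + algebraMap K L b)
    (hgen : ∀ f : L, ∃ r s : MvPolynomial (Fin 2) K, f = aeval ![x, y] r / aeval ![x, y] s) :
    ∃ (φ : L →ₐ[K] L) (N : ℕ), 2 ≤ N ∧ ∀ f, hgt K (φ f) = N * hgt K f := by
  have hchF : CharZero L := charZero_of_injective_algebraMap (algebraMap K L).injective
  have hy0 : y ≠ 0 := by
    intro h
    apply hx
    refine ⟨Polynomial.X ^ 3 + Polynomial.C a * Polynomial.X + Polynomial.C b, fun h0 => ?_, ?_⟩
    · have h2 := congrArg (fun p => p.coeff 3) h0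
      simp [Polynomial.coeff_X, Polynomial.coeff_C] at h2
    · rw [h] at h1
      simp only [map_add, map_mul, map_pow, Polynomial.aeval_X, Polynomial.aeval_C]
      rw [← h1]
      ring
  obtain ⟨m, hm⟩ : ∃ m : L, 2 * y * m = 3 * x ^ 2 + algebraMap K L a := by
    refine ⟨(3 * x ^ 2 + algebraMap K L a) / (2 * y), ?_⟩
    rw [mul_div_cancel₀]
    exact mul_ne_zero two_ne_zero hy0
  obtain ⟨h2, h3⟩ := hgt_dup hx hy0 h1 hm (by
    intro e he he'
    apply hab
    have h4 : a = -(3 * e ^ 2) := by linear_combination he'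
    have h5 : b = 2 * e ^ 3 := by
      rw [h4] at he
      linear_combination he
    rw [h4, h5]
    ring)
  obtain ⟨φ, hφ⟩ := exists_endo hx h3 h1 (dup_rel h1 hm) hgen
  obtain ⟨N, hN⟩ := hgt_hom φ
  refine ⟨φ, N, ?_, hN⟩
  have h4 := hN x
  rw [hφ] at h4
  rw [h4] at h2
  have h5 : 0 ≤ hgt K x := Pool.Agent.W603.LV.hgt_nonneg _
  by_contra hcon
  have h6 : (N : ℤ) ≤ 1 := by
    push Not at hcon
    exact_mod_cast Nat.lt_succ_iff.1 hcon
  nlinarith

/-- weighted homogeneous polynomials of degree zero are constant -/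
theorem const_of_zero {K : Type} [Field K] {p : MvPolynomial (Fin 3) K}
    (hp : IsWeightedHomogeneous ![2, 3, 1] p 0) : p = C (coeff 0 p) := by
  classical
  ext s
  rw [coeff_C]
  split_ifs with h
  · rw [h]
  · by_contra hne
    have h1 := hp hne
    rw [Finsupp.weight_apply, Finsupp.sum_fintype _ _ (by simp), Fin.sum_univ_three] at h1
    simp only [smul_eq_mul, Matrix.cons_val] at h1
    apply h
    ext i
    fin_cases i <;> simp <;> omega

/-- dehomogenisation -/
noncomputable def dh {K : Type} [Field K] (p : MvPolynomial (Fin 3) K) : MvPolynomial (Fin 2) K :=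
  aeval ![X 0, X 1, 1] p

theorem aeval_dh {K L : Type} [Field K] [Field L] [Algebra K L] (p : MvPolynomial (Fin 3) K)
    (x y : L) : aeval ![x, y] (dh p) = aeval ![x, y, 1] p := by
  have h1 : (aeval ![x, y] : MvPolynomial (Fin 2) K →ₐ[K] L).comp (aeval ![X 0, X 1, 1]) =
      aeval ![x, y, 1] := by
    refine MvPolynomial.algHom_ext fun i => ?_
    fin_cases i <;> simp
  exact DFunLike.congr_fun h1 p

theorem eval_dh {K : Type} [Field K] (p : MvPolynomial (Fin 3) K)
    (u v : K) : eval ![u, v] (dh p) = eval ![u, v, 1] p := by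
  have h1 := aeval_dh (L := K) p u v
  have h2 : ∀ {τ : Type} (z : τ → K) (q : MvPolynomial τ K), aeval z q = eval z q := fun z q =>
    congrArg (fun f : MvPolynomial _ K →+* K => f q) (MvPolynomial.coe_aeval_eq_eval z)
  rwa [h2, h2] at h1

/-- GRP -/
theorem grp (hw : St_WEI) (h : St_GCURVE) : St_GRP := by
  intro k K _ _ _ _ _ n r g m e F G d hm hF hG hgen hS a b hab D f hf hfX t t'
  classical
  obtain ⟨hf1, hf2⟩ := hf
  choose pX hpX hpX' using hf1
  choose pW hpW hpW' using hf2
  have eX : ∀ (t : EPt a b hab) j, (f t).1 j = eval t.1 (pX j) := fun t j => hpX' j t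
  have eW : ∀ (t : EPt a b hab) i, (f t).2 i = eval t.1 (pW i) := fun t i => hpW' i t
  obtain ⟨L, _, _, _, x, y, hx, hxy, hgenL, htr⟩ := hw K a b hab
  -- the affine points
  have hpt : ∀ u v : K, v ^ 2 = u ^ 3 + a * u + b → ∃ t : EPt a b hab, t.1 = ![u, v, 1] := by
    intro u v huv
    refine ⟨⟨![u, v, 1], ?_, ?_⟩, rfl⟩
    · intro h0
      have := congrFun h0 2
      simp at this
    · simp only [Matrix.cons_val]
      rw [huv]
      ring
  have htr1 : ∀ p : MvPolynomial (Fin 3) K, (∀ t : EPt a b hab, eval t.1 p = 0) →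
      aeval ![x, y, 1] p = 0 := by
    intro p hp
    rw [← aeval_dh]
    refine (htr (dh p)).1 fun u v huv => ?_
    obtain ⟨t, ht⟩ := hpt u v huv
    rw [eval_dh, ← ht]
    exact hp t
  have htr2 : ∀ (φ : EPt a b hab → K) (E : ℕ) (p : MvPolynomial (Fin 3) K),
      IsWeightedHomogeneous ![2, 3, 1] p E → (∀ t : EPt a b hab, φ t = eval t.1 p) →
      aeval ![x, y, 1] p = 0 → ∀ t, φ t = 0 := by
    intro φ E p hp hφ hp0
    by_contra hne
    push Not at hne
    obtain ⟨u0, hu0⟩ := hne
    obtain ⟨N, hN, hNz⟩ := finite_zeros (f := φ) (D := E) ⟨p, hp, hφ⟩ hu0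
    apply hN
    have hinf : Infinite K := IsAlgClosed.instInfinite
    refine Polynomial.funext fun u => ?_
    rw [Polynomial.eval_zero]
    obtain ⟨v, hv⟩ := IsAlgClosed.exists_pow_nat_eq (u ^ 3 + a * u + b) two_pos
    obtain ⟨t, ht⟩ := hpt u v hv
    have h1 := hNz t (by rw [ht]; simp) (by
      rw [hφ, ht, ← eval_dh]
      exact (htr (dh p)).2 (by rw [aeval_dh, hp0]) u v hv)
    rw [ht] at h1
    simpa using h1
  -- the equations
  have hcomp : ∀ (q : MvPolynomial (Fin (n + 1)) K) (t : EPt a b hab),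
      eval t.1 (aeval pX q : MvPolynomial (Fin 3) K) = eval (f t).1 q := by
    intro q t
    have h1 : eval t.1 (aeval pX q : MvPolynomial (Fin 3) K) =
        eval (fun j => eval t.1 (pX j)) q := by
      rw [MvPolynomial.map_aeval]
      refine DFunLike.congr_fun (MvPolynomial.ringHom_ext (fun a => ?_) fun j => ?_) q
      · simp
      · simp
    rw [h1]
    congr 2
    funext j
    exact (eX t j).symm
  have hcomp' : ∀ q : MvPolynomial (Fin (n + 1)) K,
      aeval ![x, y, 1] (aeval pX q : MvPolynomial (Fin 3) K) =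
        aeval (fun j => aeval ![x, y, 1] (pX j) : Fin (n + 1) → L) q := by
    intro q
    have h1 : (aeval ![x, y, 1] : MvPolynomial (Fin 3) K →ₐ[K] L).comp (aeval pX) =
        aeval (fun j => aeval ![x, y, 1] (pX j) : Fin (n + 1) → L) := by
      refine MvPolynomial.algHom_ext fun i => ?_
      simp
    exact DFunLike.congr_fun h1 q
  have hF' : ∀ i, (aeval ![x, y, 1] (pW i) : L) ^ m i =
      aeval (fun j => aeval ![x, y, 1] (pX j) : Fin (n + 1) → L) (F i) := by
    intro i
    rw [← hcomp', ← map_pow]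
    have h1 := htr1 (pW i ^ m i - aeval pX (F i)) (fun t => by
      rw [map_sub, map_pow, hcomp, ← eW, (hfX t).2.1 i, sub_self])
    rw [map_sub] at h1
    exact sub_eq_zero.1 h1
  have hG' : ∀ i, aeval (fun j => aeval ![x, y, 1] (pX j) : Fin (n + 1) → L) (G i) = 0 := by
    intro i
    rw [← hcomp']
    exact htr1 _ (fun t => by rw [hcomp]; exact (hfX t).2.2.1 i)
  -- the ratios are constant
  obtain ⟨φ, N, hN, hφ⟩ := exists_dup' hab hx hxy hgenL
  have hratio : ∀ i j, (aeval ![x, y, 1] (pX j) : L) ≠ 0 → ∃ c : K,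
      (aeval ![x, y, 1] (pX i) : L) = algebraMap K L c * aeval ![x, y, 1] (pX j) := by
    intro i j hj
    by_contra hcon
    have hi : (aeval ![x, y, 1] (pX i) : L) ≠ 0 := fun h0 => hcon ⟨0, by rw [h0, map_zero, zero_mul]⟩
    have key : ∀ M : ℕ, ∃ (x' : Fin (n + 1) → L) (z' : Fin r → L), x' i ≠ 0 ∧ x' j ≠ 0 ∧
        (∀ l, z' l ^ m l = aeval x' (F l)) ∧ (∀ l, aeval x' (G l) = 0) ∧
        (2 : ℤ) ^ M ≤ hgt K (x' i / x' j) := by
      intro M
      induction M with
      | zero =>
        refine ⟨_, fun l => aeval ![x, y, 1] (pW l), hi, hj, hF', hG', ?_⟩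
        rw [pow_zero]
        by_contra hlt
        obtain ⟨c, hc⟩ := const_of_hgt (k := K)
          (f := (aeval ![x, y, 1] (pX i) : L) / aeval ![x, y, 1] (pX j)) (by omega)
        exact hcon ⟨c, by rw [← hc, div_mul_cancel₀ _ hj]⟩
      | succ M ih =>
        obtain ⟨x', z', h1, h2, h3, h4, h5⟩ := ih
        have hae : ∀ q : MvPolynomial (Fin (n + 1)) K,
            aeval (fun i => φ (x' i)) q = φ (aeval x' q) := by
          intro q
          have h6 : aeval (R := K) (fun i => φ (x' i)) = φ.comp (aeval x') := by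
            apply MvPolynomial.algHom_ext
            intro i
            rw [aeval_X, AlgHom.comp_apply, aeval_X]
          rw [h6]
          rfl
        refine ⟨fun l => φ (x' l), fun l => φ (z' l), (_root_.map_ne_zero φ).2 h1,
          (_root_.map_ne_zero φ).2 h2, fun l => ?_, fun l => ?_, ?_⟩
        · rw [hae, ← h3, map_pow]
        · rw [hae, h4, map_zero]
        · rw [← map_div₀, hφ, pow_succ]
          have h7 : (2 : ℤ) ≤ N := by exact_mod_cast hN
          have h8 : (0 : ℤ) < 2 ^ M := by positivity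
          nlinarith
    obtain ⟨x', z', h1, h2, h3, h4, h5⟩ := key (canDeg K L).toNat
    have h6 := Pool.Agent.W603.CX.hgt_le_pht (k := K) x' h1 h2
    have h7 := h k K n r g m e F G d hm hF hG hgen L x' z' ⟨i, j, h2, by
      rintro ⟨c, hc⟩
      rw [← hc] at h5
      have h8 : hgt K (algebraMap K L c) = 0 := hgt_algebraic (isAlgebraic_algebraMap _)
      rw [h8] at h5
      have h9 : (0 : ℤ) < 2 ^ (canDeg K L).toNat := by positivity
      omega⟩ h3 h4
    have h8 : (1 : ℤ) ≤ ((∑ i, (m i - 1) * e i + ∑ j, (d j + 1) : ℕ) : ℤ) - 2 * n := by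
      have : ((2 * n + 1 : ℕ) : ℤ) ≤ ((∑ i, (m i - 1) * e i + ∑ j, (d j + 1) : ℕ) : ℤ) := by
        exact_mod_cast hS
      push_cast at this ⊢
      linarith
    have h9 : (((canDeg K L).toNat : ℕ) : ℤ) < 2 ^ (canDeg K L).toNat := by
      exact_mod_cast Nat.lt_two_pow_self
    have h10 := Int.self_le_toNat (canDeg K L)
    have h11 : 0 ≤ pht K x' := (Pool.Agent.W603.LV.hgt_nonneg _).trans h6
    nlinarith
  -- a coordinate which is not zero
  obtain ⟨j, hj⟩ : ∃ j, (aeval ![x, y, 1] (pX j) : L) ≠ 0 := by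
    by_contra hcon
    push Not at hcon
    refine (hfX t).1 (funext fun j => ?_)
    exact htr2 (fun t => (f t).1 j) D (pX j) (hpX j) (fun t => eX t j) (hcon j) t
  choose c hc using fun i => hratio i j hj
  have hci : ∀ (i : Fin (n + 1)) (t : EPt a b hab), (f t).1 i = c i * (f t).1 j := by
    intro i t
    have h1 := htr2 (fun t => (f t).1 i - c i * (f t).1 j) D (pX i - C (c i) * pX j) (by
      have h2 := (isWeightedHomogeneous_C (![2, 3, 1] : Fin 3 → ℕ) (c i)).mul (hpX j)
      rw [zero_add] at h2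
      exact (hpX i).sub h2) (fun t => by
      rw [map_sub, map_mul, eval_C, ← eX, ← eX]) (by
      rw [map_sub, map_mul, hc i, ← MvPolynomial.algebraMap_eq, AlgHom.commutes, sub_self]) t
    exact sub_eq_zero.1 h1
  have hnz : ∀ t : EPt a b hab, (f t).1 j ≠ 0 := by
    intro t h0
    refine (hfX t).1 (funext fun i => ?_)
    rw [hci i t, h0, mul_zero]
    rfl
  have hD : D = 0 := by
    by_contra hD
    obtain ⟨P, hP⟩ := Pool.Agent.W600.Alg.exists_zero (Nat.pos_of_ne_zero hD)
      (f := fun t => (f t).1 j) ⟨pX j, hpX j, fun t => hpX' j t⟩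
    exact hnz P hP
  subst hD
  refine ⟨1, one_ne_zero, fun j => ?_, fun i => ?_⟩
  · rw [one_mul, eX, eX, const_of_zero (hpX j)]
    simp
  · have h1 := hpW i
    rw [zero_mul] at h1
    rw [one_pow, one_mul, eW, eW, const_of_zero h1]
    simp

end Pool.Agent.Helper46.CC
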