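import Pool.Agent.Helper23.CC.Spec2

/-!
Generic covers contain no rational curves (part NORAT).
-/

set_option autoImplicit false

namespace Pool.Agent.Helper46.CC

open MvPolynomial Pool.Agent.W600.Alg Pool.Agent.Helper23.CC FF Pool.Agent.W603.LV
  Pool.Agent.W603.PV Pool.Agent.Y735.LG

/-- values of composed polynomials -/
theorem eval_comp {K : Type} [Field K] {n : ℕ} (p : Fin (n + 1) → Polynomial K)
    (F : MvPolynomial (Fin (n + 1)) K) (t : K) :
    (aeval p F : Polynomial K).eval t = eval (fun j => (p j).eval t) F := by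
  have h1 : Polynomial.evalRingHom t (aeval p F) = eval (fun j => (p j).eval t) F := by
    rw [MvPolynomial.map_aeval]
    refine DFunLike.congr_fun (MvPolynomial.ringHom_ext (fun a => ?_) fun j => ?_) F
    · simp
    · simp
  exact h1

theorem aeval_comp {K : Type} [Field K] {n : ℕ} (p : Fin (n + 1) → Polynomial K)
    (F : MvPolynomial (Fin (n + 1)) K) :
    aeval (fun j => algebraMap (Polynomial K) (RatFunc K) (p j)) F =
      algebraMap (Polynomial K) (RatFunc K) (aeval p F) :=
  MvPolynomial.aeval_algebraMap_apply (RatFunc K) p F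

/-- a polynomial over an algebraically closed field without zeros is constant -/
theorem const_of_noroot {K : Type} [Field K] [IsAlgClosed K] {p : Polynomial K}
    (h : ∀ t, p.eval t ≠ 0) : ∃ c : K, p = Polynomial.C c := by
  by_cases hd : p.degree = 0
  · exact ⟨p.coeff 0, Polynomial.eq_C_of_degree_eq_zero hd⟩
  · obtain ⟨t, ht⟩ := IsAlgClosed.exists_root p hd
    exact absurd ht (h t)

/-- NORAT -/
theorem norat (h : St_GCURVE) : St_NORAT := by
  intro k K _ _ _ _ _ n r g m e F G d hm hF hG hgen hS D f hf hfX t t'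
  classical
  obtain ⟨hf1, hf2⟩ := hf
  choose pX hpX using hf1
  choose pW hpW using hf2
  have eX : ∀ (t : K) j, (f t).1 j = (pX j).eval t := fun t j => hpX j t
  have eW : ∀ (t : K) i, (f t).2 i = (pW i).eval t := fun t i => hpW i t
  have eX' : ∀ t : K, (f t).1 = fun j => (pX j).eval t := fun t => funext (eX t)
  have hFt : ∀ (i : Fin r) (t : K), (pW i).eval t ^ m i = eval (fun j => (pX j).eval t) (F i) := by
    intro i t
    rw [← eW, ← eX']
    exact (hfX t).2.1 i
  have hGt : ∀ (i : Fin g) (t : K), eval (fun j => (pX j).eval t) (G i) = 0 := by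
    intro i t
    rw [← eX']
    exact (hfX t).2.2.1 i
  have hinf : Infinite K := IsAlgClosed.instInfinite
  have hF' : ∀ i, pW i ^ m i = aeval pX (F i) := fun i => Polynomial.funext fun t => by
    rw [Polynomial.eval_pow, eval_comp, hFt]
  have hG' : ∀ i, aeval pX (G i) = 0 := fun i => Polynomial.funext fun t => by
    rw [Polynomial.eval_zero, eval_comp, hGt]
  have hff : IsFF K (RatFunc K) := ⟨ess_ratFunc, trdeg_ratFunc⟩
  have hinj := FaithfulSMul.algebraMap_injective (Polynomial K) (RatFunc K)
  -- the ratios are constant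
  have hratio : ∀ i j, pX j ≠ 0 → ∃ c : K, pX i = Polynomial.C c * pX j := by
    intro i j hj
    by_contra hcon
    have hj' : algebraMap (Polynomial K) (RatFunc K) (pX j) ≠ 0 := fun h0 =>
      hj (hinj (by rw [h0, map_zero]))
    have h1 := h k K n r g m e F G d hm hF hG hgen (RatFunc K)
      (fun j => algebraMap (Polynomial K) (RatFunc K) (pX j))
      (fun i => algebraMap (Polynomial K) (RatFunc K) (pW i))
      ⟨i, j, hj', by
        rintro ⟨c, hc⟩
        apply hcon
        refine ⟨c, hinj ?_⟩
        rw [map_mul, eq_comm, ← eq_div_iff hj', ← hc,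
          IsScalarTower.algebraMap_apply K (Polynomial K) (RatFunc K)]
        rfl⟩
      (fun i => by rw [aeval_comp, ← hF', map_pow])
      (fun j => by rw [aeval_comp, hG', map_zero])
    rw [Pool.Agent.W619.PQ.canDeg_rational (x := (RatFunc.X : RatFunc K)) RatFunc.adjoin_X] at h1
    have h2 : 0 ≤ pht K (fun j => algebraMap (Polynomial K) (RatFunc K) (pX j)) := by
      have h3 := Pool.Agent.W603.CX.hgt_le_pht (k := K)
        (fun j => algebraMap (Polynomial K) (RatFunc K) (pX j)) hj' hj'
      exact (Pool.Agent.W603.LV.hgt_nonneg _).trans h3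
    have h3 : (0 : ℤ) ≤ ((∑ i, (m i - 1) * e i + ∑ j, (d j + 1) : ℕ) : ℤ) - 2 * n := by
      have : ((2 * n : ℕ) : ℤ) ≤ ((∑ i, (m i - 1) * e i + ∑ j, (d j + 1) : ℕ) : ℤ) := by
        exact_mod_cast hS
      push_cast at this ⊢
      linarith
    have h4 := mul_nonneg h3 h2
    linarith
  -- some coordinate is not zero, and has no zeros
  obtain ⟨j, hj⟩ : ∃ j, pX j ≠ 0 := by
    by_contra hcon
    push Not at hcon
    refine (hfX (0 : K)).1 (funext fun j => ?_)
    have h1 := eX (0 : K) j
    rw [hcon j, Polynomial.eval_zero] at h1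
    exact h1
  choose c hc using fun i => hratio i j hj
  have hnz : ∀ t, (pX j).eval t ≠ 0 := by
    intro t h0
    refine (hfX t).1 (funext fun i => ?_)
    have h1 := eX t i
    rw [hc i, Polynomial.eval_mul, h0, mul_zero] at h1
    exact h1
  obtain ⟨a, ha⟩ := const_of_noroot hnz
  have hX : ∀ s s' : K, (f s).1 = (f s').1 := by
    intro s s'
    funext i
    rw [eX, eX, hc i, ha]
    simp
  have hW : ∀ (s s' : K) i, (f s).2 i = (f s').2 i := by
    intro s s' i
    obtain ⟨b, hb⟩ : ∃ b, aeval pX (F i) = Polynomial.C b := by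
      refine ⟨eval (fun j => (pX j).eval 0) (F i), Polynomial.funext fun u => ?_⟩
      rw [eval_comp, Polynomial.eval_C]
      congr 2
      rw [← eX', ← eX']
      exact hX u 0
    have h1 : (pW i).natDegree = 0 := by
      have h2 := congrArg Polynomial.natDegree ((hF' i).trans hb)
      rw [Polynomial.natDegree_pow, Polynomial.natDegree_C] at h2
      exact (Nat.mul_eq_zero.1 h2).resolve_left (hm i).ne'
    rw [eW, eW, Polynomial.eq_C_of_natDegree_eq_zero h1]
    simp
  refine ⟨1, one_ne_zero, fun j => ?_, fun i => ?_⟩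
  · rw [one_mul]
    exact congrFun (hX t' t) j
  · rw [one_pow, one_mul]
    exact hW t' t i

end Pool.Agent.Helper46.CC
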